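import Pool.Agent.P.MP_74db7f_al.F.A4
import Pool.Agent.P.MP_19ae20_al.Cell

open Pool.Agent.P.MP_74db7f_al Pool.Agent.P.MP_19ae20_al

universe u v w

theorem Pool.Agent.Results.MP_19ae20_al.BallReduction.result
    {B : Type w} [Fintype B] [DecidableEq B] {W : Type v} [Group W] {M : CoxeterMatrix B}
    (cs : CoxeterSystem M W) (hM : AffType M) (L : W → ℕ) (hL : PosWeight cs L)
    {H : Type u} [Ring H] [Algebra (LaurentPolynomial ℤ) H]
    (Tb : Module.Basis W (LaurentPolynomial ℤ) H) (hT : IsHecke cs L Tb)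
    (bar : H →+* H) (hB : IsBar Tb bar)
    (Cb : Module.Basis W (LaurentPolynomial ℤ) H) (hC : IsKL cs Tb bar Cb)
    (N : ℕ) (hN : ∀ J : Set B, Nat.card (Subgroup.closure (cs.simple '' J)) ≤ N)
    (b : ℕ) (hb : 17 * Fintype.card B * N ^ 3 ≤ b) (Γ : Set W) (hΓ : IsLeftCell Cb Γ) :
    (∀ x ∈ Γ, ∃ y ∈ Γ, cs.length y ≤ b ∧ Joined cs Γ x y) ∧
    ∀ x y, cs.length x ≤ b → cs.length y ≤ b → Joined cs Γ x y →
      Joined cs {z ∈ Γ | cs.length z ≤ b} x y := by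
  obtain ⟨D⟩ := exists_AD cs hM
  obtain ⟨Nb, hNb⟩ := T_bounded (L := L) (by
    obtain ⟨A, d, -, h1, h2, h3, h4, h5, -⟩ := hM
    exact ⟨A, d, h1, h2, h3, h4, h5⟩) hT
  let C : HC cs H := { D with L := L, hL := hL, Tb := Tb, hT := hT, Nb := Nb, hN := hNb }
  exact ball_main C (bar := bar) (Cb := Cb) hC hN hb hΓ
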